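import Pool.Agent.Lib.MP_092512_nt.VC.V2

/-!
# The van der Corput bound `(VC)`

For `(log x) ^ (A + 3) ≤ |t| ≤ 2 x` and `k0 ≥ x ^ β0` the sum of `(k + c) ^ (it)` over `k0 < k ≤ k1 ≤ 2 k0 + 2` is
at most `k0 / (log x) ^ A`.
-/

set_option autoImplicit false

namespace Pool.Agent.Lib.VDC

open Finset Complex

theorem growV (β : ℝ) (hβ : 0 < β) (C : ℝ) (M : ℕ) :
    ∃ x0 : ℝ, 3 ≤ x0 ∧ ∀ x : ℝ, x0 ≤ x → C ≤ Real.log x ∧ (Real.log x) ^ M ≤ x ^ β := by
  have h1 : ∀ᶠ x : ℝ in Filter.atTop, C ≤ Real.log x :=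
    Real.tendsto_log_atTop.eventually (Filter.eventually_ge_atTop C)
  have h1' : ∀ᶠ x : ℝ in Filter.atTop, 1 ≤ Real.log x :=
    Real.tendsto_log_atTop.eventually (Filter.eventually_ge_atTop 1)
  have hr : (0 : ℝ) < β / (M + 1) := by positivity
  have h2 := (isLittleO_log_rpow_atTop hr).bound (show (0 : ℝ) < 1 by norm_num)
  obtain ⟨x0, hx0⟩ := Filter.eventually_atTop.1 (h1.and (h1'.and h2))
  refine ⟨max x0 3, le_max_right _ _, fun x hx => ?_⟩
  obtain ⟨a, b, c⟩ := hx0 x ((le_max_left _ _).trans hx)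
  refine ⟨a, ?_⟩
  have hx3 : 3 ≤ x := (le_max_right _ _).trans hx
  have c' : Real.log x ≤ x ^ (β / (M + 1)) := by
    rw [one_mul, Real.norm_of_nonneg (by linarith), Real.norm_of_nonneg (by positivity)] at c
    exact c
  calc (Real.log x) ^ M ≤ (Real.log x) ^ (M + 1) := pow_le_pow_right₀ b (Nat.le_succ M)
    _ ≤ (x ^ (β / (M + 1))) ^ (M + 1) := pow_le_pow_left₀ (by linarith) c' _
    _ = x ^ β := by
      rw [← Real.rpow_natCast, ← Real.rpow_mul (by linarith)]
      congr 1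
      push_cast
      field_simp

theorem trivial_bound (θ : ℕ → ℝ) (N : ℕ) :
    ‖∑ n ∈ range N, Complex.exp (I * ((θ n : ℝ) : ℂ))‖ ≤ N := by
  refine (norm_sum_le _ _).trans ((Finset.sum_le_sum (g := fun _ => (1 : ℝ)) fun n _ => ?_).trans
    (by simp))
  rw [mul_comm, Complex.norm_exp_ofReal_mul_I]

theorem vc (A : ℕ) (β0 : ℝ) (h0 : 0 < β0) : ∃ x0 : ℝ, 1 ≤ x0 ∧ ∀ x : ℝ, x0 ≤ x → ∀ t : ℝ,
    (Real.log x) ^ (A + 3) ≤ |t| → |t| ≤ 2 * x →
    ∀ k0 k1 : ℕ, x ^ β0 ≤ k0 → k1 ≤ 2 * k0 + 2 → ∀ c : ℝ, 0 ≤ c → c ≤ 1 →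
    ‖∑ k ∈ Ioc k0 k1, Complex.exp (Complex.I * (t * Real.log (k + c)))‖
      ≤ k0 / (Real.log x) ^ A := by
  classical
  set ρm : ℕ := ⌈2 / β0⌉₊ + 1 with hρm
  obtain ⟨x0, hx03, hx0⟩ := growV (β0 / 4) (by positivity)
    ((∑ ρ ∈ range (ρm + 1), Cst ρ : ℕ) + 30 : ℝ) ((∑ ρ ∈ range (ρm + 1), Mst A ρ) + 1)
  refine ⟨x0, by linarith, fun x hx t ht1 ht2 k0 k1 hk0 hk1 c hc0 hc1 => ?_⟩
  obtain ⟨hK, hKq0⟩ := hx0 x hx
  set K := Real.log x with hKdef
  have hx3 : 3 ≤ x := hx03.trans hx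
  have hC : ∀ ρ ≤ ρm, (Cst ρ : ℝ) ≤ K := by
    intro ρ hρ
    have h1 : Cst ρ ≤ ∑ ρ ∈ range (ρm + 1), Cst ρ :=
      Finset.single_le_sum (f := Cst) (fun _ _ => Nat.zero_le _) (mem_range.2 (by omega))
    have h2 : (Cst ρ : ℝ) ≤ ((∑ ρ ∈ range (ρm + 1), Cst ρ : ℕ) : ℝ) := by exact_mod_cast h1
    linarith
  have hK30 : 30 ≤ K := by
    have : (0 : ℝ) ≤ ((∑ ρ ∈ range (ρm + 1), Cst ρ : ℕ) : ℝ) := Nat.cast_nonneg _
    linarith
  have hK1 : 1 ≤ K := by linarith
  have hK0 : 0 < K := by linarith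
  set q : ℝ := (k0 : ℝ) ^ ((1 : ℝ) / 4) with hq
  have hk0r : (0 : ℝ) ≤ k0 := Nat.cast_nonneg _
  have hq4 : q ^ 4 = k0 := by
    rw [hq, ← Real.rpow_natCast, ← Real.rpow_mul hk0r]
    norm_num
  have hxq : x ^ (β0 / 4) ≤ q := by
    calc x ^ (β0 / 4) = (x ^ β0) ^ ((1 : ℝ) / 4) := by
          rw [← Real.rpow_mul (by linarith)]; congr 1; ring
      _ ≤ q := Real.rpow_le_rpow (by positivity) hk0 (by norm_num)
  have hKq : K ^ ((∑ ρ ∈ range (ρm + 1), Mst A ρ) + 1) ≤ q := hKq0.trans hxq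
  have hM : ∀ ρ ≤ ρm, K ^ Mst A ρ ≤ q := by
    intro ρ hρ
    refine (pow_le_pow_right₀ hK1 ?_).trans hKq
    have h1 : Mst A ρ ≤ ∑ ρ ∈ range (ρm + 1), Mst A ρ :=
      Finset.single_le_sum (f := Mst A) (fun _ _ => Nat.zero_le _) (mem_range.2 (by omega))
    omega
  have hq30 : 30 ≤ q := by
    calc (30 : ℝ) ≤ K := hK30
      _ = K ^ 1 := (pow_one K).symm
      _ ≤ K ^ ((∑ ρ ∈ range (ρm + 1), Mst A ρ) + 1) := pow_le_pow_right₀ hK1 (by omega)
      _ ≤ q := hKq
  have hq1 : 1 ≤ q := by linarith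
  have hq0 : 0 < q := by linarith
  have hq5 : (5 : ℝ) ≤ q ^ 4 := by
    have : q ≤ q ^ 4 := le_self_pow₀ hq1 (by norm_num)
    linarith
  have ht0 : 0 < |t| := lt_of_lt_of_le (by positivity) ht1
  have ht : t ≠ 0 := abs_pos.1 ht0
  -- the sum over a range
  have hsum : ∑ k ∈ Ioc k0 k1, Complex.exp (Complex.I * (t * Real.log (k + c)))
      = ∑ n ∈ range (k1 - k0), Complex.exp (I * ((t * Real.log ((k0 + 1 + c) + n) : ℝ) : ℂ)) := by
    have e1 : Ioc k0 k1 = Ico (k0 + 1) (k1 + 1) := by ext a; simp only [mem_Ioc, mem_Ico]; omega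
    rw [e1, Finset.sum_Ico_eq_sum_range, show k1 + 1 - (k0 + 1) = k1 - k0 by omega]
    refine Finset.sum_congr rfl fun n _ => ?_
    have e : ((k0 + 1 + n : ℕ) : ℝ) + c = (k0 + 1 + c) + n := by push_cast; ring
    rw [e, Complex.ofReal_mul]
  rw [hsum]
  set N := k1 - k0 with hN
  set z0 : ℝ := (k0 : ℝ) + 1 + c with hz0
  have hNle : (N : ℝ) ≤ q ^ 4 + 2 := by
    have : N ≤ k0 + 2 := by omega
    have : (N : ℝ) ≤ k0 + 2 := by exact_mod_cast this
    linarith
  rw [← hq4] at hz0 ⊢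
  rcases lt_or_ge (N : ℝ) (q ^ 4 / K ^ (A + 1)) with hsm | hN1
  · refine (trivial_bound (fun n => t * Real.log (z0 + n)) N).trans (hsm.le.trans ?_)
    exact div_le_div_of_nonneg_left (by positivity) (by positivity)
      (pow_le_pow_right₀ hK1 (by omega))
  rcases le_or_gt |t| (q ^ 3) with h3 | h3
  · -- no differencing
    have key := kl_apply t z0 (q ^ 4) [] 1 1 N le_rfl (by positivity) ht
      (by intro p hp; simp at hp) (by linarith)
      (by simp only [List.length_nil, Nat.cast_zero, zero_mul]; linarith)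
      (by
        simp only [List.length_nil, Nat.factorial_zero, Nat.cast_one, pow_zero, zero_add, pow_one,
          mul_one]
        have : |t| * (1 / q ^ 4) ≤ 1 := by
          rw [mul_one_div, div_le_one (by positivity)]
          exact h3.trans (pow_le_pow_right₀ hq1 (by norm_num))
        linarith [Real.pi_gt_three])
    simp only [D_nil, List.length_nil, Nat.factorial_zero, Nat.cast_one, pow_zero, zero_add,
      pow_one, mul_one] at key
    refine key.trans ?_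
    have e1 : 8 / (|t| * (1 / (3 * q ^ 4))) = 24 * q ^ 4 / |t| := by
      field_simp
      ring
    rw [e1, div_le_div_iff₀ ht0 (by positivity)]
    have e2 : 24 * K ^ A ≤ |t| := by
      refine le_trans ?_ ht1
      rw [pow_add]
      have : (24 : ℝ) ≤ K ^ 3 := by
        have : K ≤ K ^ 3 := le_self_pow₀ hK1 (by norm_num)
        linarith
      have h2 : 0 ≤ K ^ A := by positivity
      nlinarith
    calc 24 * q ^ 4 * K ^ A = q ^ 4 * (24 * K ^ A) := by ring
      _ ≤ q ^ 4 * |t| := mul_le_mul_of_nonneg_left e2 (by positivity)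
  · -- the number of differencings
    have hex : ∃ ρ : ℕ, 1 ≤ ρ ∧ |t| ≤ q ^ (4 * ρ + 2) := by
      refine ⟨ρm, by omega, ht2.trans ?_⟩
      have a1 : x ^ (β0 / 4) ≤ q := hxq
      have a2 : x ^ 2 ≤ q ^ (4 * ρm) := by
        calc x ^ 2 = x ^ (2 : ℝ) := by rw [← Real.rpow_natCast]; norm_num
          _ ≤ x ^ (β0 / 4 * ((4 * ρm : ℕ) : ℝ)) := by
              apply Real.rpow_le_rpow_of_exponent_le (by linarith)
              have : 2 / β0 ≤ ρm := by
                rw [hρm]; push_cast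
                have := Nat.le_ceil (2 / β0)
                linarith
              rw [div_le_iff₀ h0] at this
              push_cast
              linarith
          _ = (x ^ (β0 / 4)) ^ (4 * ρm) := by rw [Real.rpow_mul (by linarith), Real.rpow_natCast]
          _ ≤ q ^ (4 * ρm) := pow_le_pow_left₀ (by positivity) a1 _
      have a3 : q ^ (4 * ρm) ≤ q ^ (4 * ρm + 2) := pow_le_pow_right₀ hq1 (by omega)
      nlinarith
    have hρ := Nat.find_spec hex
    have hρmin : ∀ m < Nat.find hex, ¬ (1 ≤ m ∧ |t| ≤ q ^ (4 * m + 2)) := fun m hm =>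
      Nat.find_min hex hm
    have hρle : Nat.find hex ≤ ρm := by
      by_contra hcon
      push Not at hcon
      refine hρmin ρm hcon ⟨by omega, ht2.trans ?_⟩
      have a1 : x ^ (β0 / 4) ≤ q := hxq
      have a2 : x ^ 2 ≤ q ^ (4 * ρm) := by
        calc x ^ 2 = x ^ (2 : ℝ) := by rw [← Real.rpow_natCast]; norm_num
          _ ≤ x ^ (β0 / 4 * ((4 * ρm : ℕ) : ℝ)) := by
              apply Real.rpow_le_rpow_of_exponent_le (by linarith)
              have : 2 / β0 ≤ ρm := by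
                rw [hρm]; push_cast
                have := Nat.le_ceil (2 / β0)
                linarith
              rw [div_le_iff₀ h0] at this
              push_cast
              linarith
          _ = (x ^ (β0 / 4)) ^ (4 * ρm) := by rw [Real.rpow_mul (by linarith), Real.rpow_natCast]
          _ ≤ q ^ (4 * ρm) := pow_le_pow_left₀ (by positivity) a1 _
      have a3 : q ^ (4 * ρm) ≤ q ^ (4 * ρm + 2) := pow_le_pow_right₀ hq1 (by omega)
      nlinarith
    set ρ := Nat.find hex with hρdef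
    have hlow : q ^ (ρ + 2) ≤ |t| := by
      rcases Nat.lt_or_ge 1 ρ with h | h
      · have h5 := hρmin (ρ - 1) (by omega)
        push Not at h5
        have h6 := h5 (by omega)
        refine le_trans (pow_le_pow_right₀ hq1 ?_) h6.le
        omega
      · have h4 : ρ = 1 := le_antisymm h hρ.1
        rw [h4]
        exact h3.le
    exact vdc_rho A ρ hρ.1 K q t z0 N (hC ρ hρle) (hM ρ hρle) hlow hρ.2 (by linarith)
      (by linarith) hNle hN1

end Pool.Agent.Lib.VDC
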