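import Mathlib

/-!
# Iterated differences of the logarithm
-/

set_option autoImplicit false

namespace Pool.Agent.Lib.VDC

open Finset

/-- the `m`-th derivative of `log` -/
noncomputable def g : ℕ → ℝ → ℝ
  | 0, x => Real.log x
  | m + 1, x => (-1) ^ m * (m.factorial : ℝ) / x ^ (m + 1)

theorem g_deriv (m : ℕ) {x : ℝ} (hx : 0 < x) : HasDerivAt (g m) (g (m + 1) x) x := by
  cases m with
  | zero =>
    have : g 0 = Real.log := by funext y; rfl
    rw [this]
    have h := Real.hasDerivAt_log hx.ne'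
    simpa [g] using h
  | succ m =>
    have h := ((hasDerivAt_pow (m + 1) x).inv (pow_ne_zero _ hx.ne')).const_mul
      ((-1) ^ m * (m.factorial : ℝ))
    have e1 : g (m + 1) = fun y => (-1) ^ m * (m.factorial : ℝ) * (y ^ (m + 1))⁻¹ := by
      funext y; simp only [g]; rw [div_eq_mul_inv]
    rw [e1]
    have e2 : g (m + 1 + 1) x = (-1) ^ m * (m.factorial : ℝ) *
        (-(((m + 1 : ℕ) : ℝ) * x ^ (m + 1 - 1)) / (x ^ (m + 1)) ^ 2) := by
      simp only [g, Nat.add_sub_cancel]
      rw [Nat.factorial_succ]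
      push_cast
      field_simp
      ring
    rw [e2]
    exact h

/-- iterated differences -/
def D : List (ℕ × ℕ) → (ℝ → ℝ) → ℝ → ℝ
  | [], φ, x => φ x
  | p :: l, φ, x => D l φ (x + p.1) - D l φ (x + p.2)

@[simp] theorem D_nil (φ : ℝ → ℝ) (x : ℝ) : D [] φ x = φ x := rfl

@[simp] theorem D_cons (p : ℕ × ℕ) (l : List (ℕ × ℕ)) (φ : ℝ → ℝ) (x : ℝ) :
    D (p :: l) φ x = D l φ (x + p.1) - D l φ (x + p.2) := rfl

/-- the product of the steps -/
def P (l : List (ℕ × ℕ)) : ℝ := (l.map fun p => (p.1 : ℝ) - p.2).prod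

/-- the total length -/
def L (l : List (ℕ × ℕ)) : ℝ := (l.map fun p => ((max p.1 p.2 : ℕ) : ℝ)).sum

@[simp] theorem P_nil : P [] = 1 := rfl
@[simp] theorem P_cons (p : ℕ × ℕ) (l : List (ℕ × ℕ)) :
    P (p :: l) = ((p.1 : ℝ) - p.2) * P l := by simp [P]
@[simp] theorem L_nil : L [] = 0 := rfl
@[simp] theorem L_cons (p : ℕ × ℕ) (l : List (ℕ × ℕ)) :
    L (p :: l) = ((max p.1 p.2 : ℕ) : ℝ) + L l := by simp [L]

theorem L_nonneg (l : List (ℕ × ℕ)) : 0 ≤ L l := by
  induction l with
  | nil => simp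
  | cons p l ih => rw [L_cons]; positivity

theorem D_deriv (l : List (ℕ × ℕ)) (m : ℕ) {x : ℝ} (hx : 0 < x) :
    HasDerivAt (D l (g m)) (D l (g (m + 1)) x) x := by
  induction l generalizing x with
  | nil => exact g_deriv m hx
  | cons p l ih =>
    have h1 : HasDerivAt (fun y => D l (g m) (y + p.1)) (D l (g (m + 1)) (x + p.1)) x := by
      have := (ih (x := x + p.1) (by positivity)).comp_add_const x (p.1 : ℝ)
      simpa using this
    have h2 : HasDerivAt (fun y => D l (g m) (y + p.2)) (D l (g (m + 1)) (x + p.2)) x := by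
      have := (ih (x := x + p.2) (by positivity)).comp_add_const x (p.2 : ℝ)
      simpa using this
    exact h1.sub h2

theorem mvt {f f' : ℝ → ℝ} {u v : ℝ} (hu : 0 < u) (hv : 0 < v)
    (hf : ∀ y, 0 < y → HasDerivAt f (f' y) y) :
    ∃ c, min u v ≤ c ∧ c ≤ max u v ∧ f u - f v = (u - v) * f' c := by
  rcases lt_trichotomy u v with h | h | h
  · obtain ⟨c, hc, e⟩ := exists_hasDerivAt_eq_slope f f' h
      (fun y hy => (hf y (lt_of_lt_of_le hu hy.1)).continuousAt.continuousWithinAt)
      (fun y hy => hf y (hu.trans hy.1))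
    refine ⟨c, ?_, ?_, ?_⟩
    · rw [min_eq_left h.le]; exact hc.1.le
    · rw [max_eq_right h.le]; exact hc.2.le
    · rw [e]
      have : v - u ≠ 0 := by linarith
      field_simp
      ring
  · subst h
    exact ⟨u, by simp, by simp, by simp⟩
  · obtain ⟨c, hc, e⟩ := exists_hasDerivAt_eq_slope f f' h
      (fun y hy => (hf y (lt_of_lt_of_le hv hy.1)).continuousAt.continuousWithinAt)
      (fun y hy => hf y (hv.trans hy.1))
    refine ⟨c, ?_, ?_, ?_⟩
    · rw [min_eq_right h.le]; exact hc.1.le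
    · rw [max_eq_left h.le]; exact hc.2.le
    · rw [e]
      have : u - v ≠ 0 := by linarith
      field_simp

theorem D_mvt (l : List (ℕ × ℕ)) (m : ℕ) {x : ℝ} (hx : 0 < x) :
    ∃ ξ, x ≤ ξ ∧ ξ ≤ x + L l ∧ D l (g m) x = P l * g (m + l.length) ξ := by
  induction l generalizing m x with
  | nil => exact ⟨x, le_rfl, by simp, by simp⟩
  | cons p l ih =>
    obtain ⟨c, hc1, hc2, hc⟩ := mvt (f := D l (g m)) (f' := D l (g (m + 1)))
      (u := x + p.1) (v := x + p.2) (by positivity) (by positivity)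
      (fun y hy => D_deriv l m hy)
    have hxc : x ≤ c := le_trans (le_min (by simp) (by simp)) hc1
    have hcx : c ≤ x + ((max p.1 p.2 : ℕ) : ℝ) := by
      refine hc2.trans ?_
      push_cast
      rw [← max_add_add_left]
    obtain ⟨ξ, h1, h2, h3⟩ := ih (m + 1) (x := c) (by linarith)
    refine ⟨ξ, hxc.trans h1, ?_, ?_⟩
    · rw [L_cons]; linarith
    · rw [D_cons, hc, h3, P_cons, List.length_cons]
      rw [show m + 1 + l.length = m + (l.length + 1) by ring]
      ring

end Pool.Agent.Lib.VDC
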