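import Pool.Agent.Lib.MP_092512_nt.VC.KL
import Pool.Agent.Lib.MP_092512_nt.VC.IM
import Pool.Agent.Lib.MP_8fac0f_nt.N.V

/-!
# The van der Corput induction for `n ^ (it)`, with parameters
-/

set_option autoImplicit false

namespace Pool.Agent.Lib.VDC

open Finset Complex

/-- lists of distinct shifts which are multiples of `d` and at most `R d` -/
def Adm (d R : ℕ) (l : List (ℕ × ℕ)) : Prop :=
  ∀ p ∈ l, p.1 ≠ p.2 ∧ d ∣ p.1 ∧ d ∣ p.2 ∧ p.1 ≤ R * d ∧ p.2 ≤ R * d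

theorem Adm.tail {d R : ℕ} {p : ℕ × ℕ} {l : List (ℕ × ℕ)} (h : Adm d R (p :: l)) : Adm d R l :=
  fun q hq => h q (List.mem_cons_of_mem _ hq)

theorem abs_step {d R : ℕ} {p : ℕ × ℕ}
    (h : p.1 ≠ p.2 ∧ d ∣ p.1 ∧ d ∣ p.2 ∧ p.1 ≤ R * d ∧ p.2 ≤ R * d) :
    (d : ℝ) ≤ |(p.1 : ℝ) - p.2| ∧ |(p.1 : ℝ) - p.2| ≤ R * d := by
  obtain ⟨h1, ⟨a, ha⟩, ⟨b, hb⟩, h4, h5⟩ := h
  have h4' : (p.1 : ℝ) ≤ R * d := by exact_mod_cast h4
  have h5' : (p.2 : ℝ) ≤ R * d := by exact_mod_cast h5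
  have h1' : (0 : ℝ) ≤ p.1 := Nat.cast_nonneg _
  have h2' : (0 : ℝ) ≤ p.2 := Nat.cast_nonneg _
  refine ⟨?_, abs_le.2 ⟨by linarith, by linarith⟩⟩
  have hab : (a : ℤ) - b ≠ 0 := by
    intro e
    apply h1
    rw [ha, hb]
    have : a = b := by omega
    rw [this]
  have h6 : (1 : ℤ) ≤ |(a : ℤ) - b| := Int.one_le_abs hab
  have h7 : (1 : ℝ) ≤ |(a : ℝ) - b| := by exact_mod_cast h6
  rw [ha, hb]
  push_cast
  rw [← mul_sub, abs_mul, abs_of_nonneg (Nat.cast_nonneg d : (0 : ℝ) ≤ d)]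
  exact le_mul_of_one_le_right (Nat.cast_nonneg d) h7

theorem P_bounds {d R : ℕ} {l : List (ℕ × ℕ)} (h : Adm d R l) :
    (d : ℝ) ^ l.length ≤ |P l| ∧ |P l| ≤ ((R : ℝ) * d) ^ l.length := by
  induction l with
  | nil => simp
  | cons p l ih =>
    obtain ⟨a1, a2⟩ := abs_step (h p (by simp))
    obtain ⟨b1, b2⟩ := ih h.tail
    rw [P_cons, abs_mul, List.length_cons, pow_succ', pow_succ']
    exact ⟨mul_le_mul a1 b1 (by positivity) (abs_nonneg _),
      mul_le_mul a2 b2 (abs_nonneg _) (by positivity)⟩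

theorem L_bound {d R : ℕ} {l : List (ℕ × ℕ)} (h : Adm d R l) :
    L l ≤ l.length * ((R : ℝ) * d) := by
  induction l with
  | nil => simp
  | cons p l ih =>
    have h1 := h p (by simp)
    have h2 : ((max p.1 p.2 : ℕ) : ℝ) ≤ R * d := by
      have : max p.1 p.2 ≤ R * d := max_le h1.2.2.2.1 h1.2.2.2.2
      exact_mod_cast this
    have := ih h.tail
    rw [L_cons, List.length_cons]
    push_cast at h2 ⊢
    linarith

theorem norm_sum_neg (φ : ℕ → ℝ) (N : ℕ) :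
    ‖∑ n ∈ range N, Complex.exp (I * ((-(φ n) : ℝ) : ℂ))‖
      = ‖∑ n ∈ range N, Complex.exp (I * (φ n : ℂ))‖ := by
  have : ∑ n ∈ range N, Complex.exp (I * ((-(φ n) : ℝ) : ℂ))
      = (starRingEnd ℂ) (∑ n ∈ range N, Complex.exp (I * (φ n : ℂ))) := by
    rw [map_sum]
    refine Finset.sum_congr rfl fun n _ => ?_
    rw [← Complex.exp_conj, map_mul, Complex.conj_I, Complex.conj_ofReal]
    congr 1
    push_cast
    ring
  rw [this, RCLike.norm_conj]

theorem kl_apply (t x0 k0 : ℝ) (l : List (ℕ × ℕ)) (d R N : ℕ) (hd : 1 ≤ d) (hk0 : 0 < k0)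
    (ht : t ≠ 0) (hl : Adm d R l) (hx0 : k0 ≤ x0)
    (hx1 : x0 + N + 1 + l.length * ((R : ℝ) * d) ≤ 3 * k0)
    (hpi : |t| * (((R : ℝ) * d) ^ l.length * (l.length.factorial : ℝ) / k0 ^ (l.length + 1))
      ≤ Real.pi) :
    ‖∑ n ∈ range N, Complex.exp (I * ((t * D l Real.log (x0 + n) : ℝ) : ℂ))‖
      ≤ 8 / (|t| * ((d : ℝ) ^ l.length * (l.length.factorial : ℝ) / (3 * k0) ^ (l.length + 1))) := by
  set ρ := l.length with hρ
  have hg0 : g 0 = Real.log := by funext y; rfl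
  have hdr : (1 : ℝ) ≤ d := by exact_mod_cast hd
  obtain ⟨hP1, hP2⟩ := P_bounds hl
  rw [← hρ] at hP1 hP2
  have hPpos : 0 < |P l| := lt_of_lt_of_le (by positivity) hP1
  have hP0 : P l ≠ 0 := abs_pos.1 hPpos
  have hLb := L_bound hl
  rw [← hρ] at hLb
  have hL0 := L_nonneg l
  set s : ℝ := t * P l * (-1) ^ ρ with hs
  have hs0 : s ≠ 0 := by
    rw [hs]; exact mul_ne_zero (mul_ne_zero ht hP0) (pow_ne_zero _ (by norm_num))
  have hsabs : |s| = |t| * |P l| := by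
    rw [hs, abs_mul, abs_mul, abs_pow, abs_neg, abs_one, one_pow, mul_one]
  obtain ⟨σ, hσ, hσs⟩ : ∃ σ : ℝ, (σ = 1 ∨ σ = -1) ∧ σ * s = |s| := by
    rcases lt_or_gt_of_ne hs0 with h | h
    · exact ⟨-1, Or.inr rfl, by rw [abs_of_neg h]; ring⟩
    · exact ⟨1, Or.inl rfl, by rw [abs_of_pos h]; ring⟩
  set φ : ℕ → ℝ := fun n => t * D l Real.log (x0 + n) with hφ
  have hfac : (0 : ℝ) < (ρ.factorial : ℝ) := by exact_mod_cast Nat.factorial_pos ρ
  have d1 : ∀ n : ℕ, ∃ ξ : ℝ, x0 + n ≤ ξ ∧ ξ ≤ x0 + n + 1 + L l ∧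
      σ * φ (n + 1) - σ * φ n = |s| * ((ρ.factorial : ℝ) / ξ ^ (ρ + 1)) := by
    intro n
    obtain ⟨ξ, h1, h2, h3⟩ := D_mvt ((1, 0) :: l) 0 (x := x0 + n) (by
      have : (0 : ℝ) ≤ n := Nat.cast_nonneg n
      linarith)
    refine ⟨ξ, h1, ?_, ?_⟩
    · rw [L_cons] at h2
      push_cast at h2
      simp only [max_eq_left (zero_le_one' ℝ)] at h2
      linarith
    · rw [D_cons, hg0, P_cons, List.length_cons, zero_add] at h3
      simp only [Nat.cast_one, Nat.cast_zero, add_zero, sub_zero, one_mul] at h3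
      rw [← hσs, ← mul_sub, hφ]
      simp only
      rw [← mul_sub]
      have e : x0 + ((n + 1 : ℕ) : ℝ) = x0 + n + 1 := by push_cast; ring
      rw [e, h3, ← hρ, hs]
      simp only [g]
      ring
  have d2 : ∀ n : ℕ, σ * φ (n + 2) - σ * φ (n + 1) ≤ σ * φ (n + 1) - σ * φ n := by
    intro n
    have hpos : 0 < x0 + n := by
      have : (0 : ℝ) ≤ n := Nat.cast_nonneg n
      linarith
    obtain ⟨ξ, h1, h2, h3⟩ := D_mvt ((1, 0) :: (1, 0) :: l) 0 (x := x0 + n) hpos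
    rw [D_cons, D_cons, D_cons, hg0, P_cons, P_cons, List.length_cons, List.length_cons,
      zero_add] at h3
    simp only [Nat.cast_one, Nat.cast_zero, add_zero, sub_zero, one_mul] at h3
    have hξ : 0 < ξ := by linarith
    have e1 : x0 + ((n + 1 : ℕ) : ℝ) = x0 + n + 1 := by push_cast; ring
    have e2 : x0 + ((n + 2 : ℕ) : ℝ) = x0 + n + 1 + 1 := by push_cast; ring
    have e3 : (σ * φ (n + 2) - σ * φ (n + 1)) - (σ * φ (n + 1) - σ * φ n)
        = -(|s| * (((ρ + 1).factorial : ℝ) / ξ ^ (ρ + 2))) := by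
      rw [hφ]
      simp only
      rw [e1, e2]
      have : σ * (t * D l Real.log (x0 + n + 1 + 1)) - σ * (t * D l Real.log (x0 + n + 1))
          - (σ * (t * D l Real.log (x0 + n + 1)) - σ * (t * D l Real.log (x0 + n)))
          = σ * t * (D l Real.log (x0 + n + 1 + 1) - D l Real.log (x0 + n + 1)
            - (D l Real.log (x0 + n + 1) - D l Real.log (x0 + n))) := by ring
      rw [this, h3, ← hσs, ← hρ, hs]
      simp only [g]
      rw [pow_succ ((-1 : ℝ)) ρ]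
      ring
    have e4 : 0 ≤ |s| * (((ρ + 1).factorial : ℝ) / ξ ^ (ρ + 2)) := by positivity
    linarith
  have key := kusmin_landau (fun n => σ * φ n) N
    (|t| * ((d : ℝ) ^ ρ * (ρ.factorial : ℝ) / (3 * k0) ^ (ρ + 1)))
    (by have : 0 < |t| := abs_pos.2 ht
        positivity)
    (fun n hn => by
      obtain ⟨ξ, h1, h2, h3⟩ := d1 n
      have hn' : (n : ℝ) + 1 ≤ N := by exact_mod_cast hn
      have hn0 : (0 : ℝ) ≤ n := Nat.cast_nonneg n
      have hξ0 : 0 < ξ := by linarith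
      have hξ : ξ ≤ 3 * k0 := by linarith
      show _ ≤ σ * φ (n + 1) - σ * φ n
      rw [h3, hsabs, mul_assoc]
      refine mul_le_mul_of_nonneg_left ?_ (abs_nonneg _)
      rw [mul_div_assoc]
      exact mul_le_mul hP1 (div_le_div_of_nonneg_left hfac.le (by positivity)
        (pow_le_pow_left₀ hξ0.le hξ _)) (by positivity) (abs_nonneg _))
    (fun n hn => by
      obtain ⟨ξ, h1, h2, h3⟩ := d1 n
      have hn0 : (0 : ℝ) ≤ n := Nat.cast_nonneg n
      have hξ0 : k0 ≤ ξ := by linarith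
      have hξp : 0 < ξ := by linarith
      show σ * φ (n + 1) - σ * φ n ≤ _
      rw [h3, hsabs, mul_assoc]
      refine le_trans (mul_le_mul_of_nonneg_left ?_ (abs_nonneg _)) hpi
      rw [mul_div_assoc]
      exact mul_le_mul hP2 (div_le_div_of_nonneg_left hfac.le (by positivity)
        (pow_le_pow_left₀ hk0.le hξ0 _)) (by positivity) (by positivity))
    (fun n _ => d2 n)
  rcases hσ with h | h
  · subst h
    simpa only [one_mul] using key
  · subst h
    have e : ∀ n, (-1 : ℝ) * φ n = -(φ n) := fun n => by ring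
    simp only [e] at key
    rwa [norm_sum_neg] at key

/-- the bounds of the induction -/
noncomputable def fr (f0 R E : ℝ) : ℕ → ℝ
  | 0 => f0
  | r + 1 => Real.sqrt (1 / R + fr f0 R E r) + E

theorem fr_nonneg {f0 R E : ℝ} (h0 : 0 ≤ f0) (hE : 0 ≤ E) (r : ℕ) : 0 ≤ fr f0 R E r := by
  cases r with
  | zero => exact h0
  | succ r => exact add_nonneg (Real.sqrt_nonneg _) hE

theorem vdc_ind (t x0 k0 : ℝ) (ρ d R N : ℕ) (hd : 1 ≤ d) (hR : 1 ≤ R) (hN : 1 ≤ N) (hk0 : 0 < k0)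
    (ht : t ≠ 0) (hx0 : k0 ≤ x0) (hx1 : x0 + N + 1 + ρ * ((R : ℝ) * d) ≤ 3 * k0)
    (hpi : |t| * (((R : ℝ) * d) ^ ρ * (ρ.factorial : ℝ) / k0 ^ (ρ + 1)) ≤ Real.pi) :
    ∀ r ≤ ρ, ∀ l : List (ℕ × ℕ), l.length + r = ρ → Adm d R l →
      ‖∑ n ∈ range N, Complex.exp (I * ((t * D l Real.log (x0 + n) : ℝ) : ℂ))‖
        ≤ fr (8 / (|t| * ((d : ℝ) ^ ρ * (ρ.factorial : ℝ) / (3 * k0) ^ (ρ + 1))) / N) R
          (2 * ((R * d : ℕ) : ℝ) / N) r * N := by
  have hNr : (0 : ℝ) < N := by exact_mod_cast hN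
  have ht0 : 0 < |t| := abs_pos.2 ht
  have hdr : (1 : ℝ) ≤ d := by exact_mod_cast hd
  have hfac : (0 : ℝ) < (ρ.factorial : ℝ) := by exact_mod_cast Nat.factorial_pos ρ
  intro r
  induction r with
  | zero =>
    intro _ l hl hA
    have hl' : l.length = ρ := by omega
    have := kl_apply t x0 k0 l d R N hd hk0 ht hA hx0 (by rw [hl']; exact hx1)
      (by rw [hl']; exact hpi)
    rw [hl'] at this
    rw [fr, div_mul_cancel₀ _ hNr.ne']
    exact this
  | succ r ih =>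
    intro hr l hl hA
    have ih' := ih (by omega)
    rw [fr]
    refine Pool.Agent.Lib.MP_8fac0f_nt.N.vdcC
      (fun n => Complex.exp (I * ((t * D l Real.log (x0 + n) : ℝ) : ℂ))) (fun n => ?_) N R (R * d)
      (by omega) (by omega) (fun i => i * d)
      (fun i hi => Nat.mul_le_mul_right _ hi.le) _ (fr_nonneg (by positivity) (by positivity) r)
      (fun i hi j hj hij => ?_)
    · rw [mul_comm, Complex.norm_exp_ofReal_mul_I]
    · have hA' : Adm d R ((i * d, j * d) :: l) := by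
        intro p hp
        rcases List.mem_cons.1 hp with h | h
        · subst h
          refine ⟨?_, Dvd.intro_left i rfl, Dvd.intro_left j rfl,
            Nat.mul_le_mul_right _ hi.le, Nat.mul_le_mul_right _ hj.le⟩
          intro e
          exact hij (Nat.eq_of_mul_eq_mul_right (by omega) e)
        · exact hA p h
      have := ih' ((i * d, j * d) :: l) (by rw [List.length_cons]; omega) hA'
      refine le_trans (le_of_eq ?_) this
      congr 1
      refine Finset.sum_congr rfl fun n _ => ?_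
      rw [← Complex.exp_conj, map_mul, Complex.conj_I, Complex.conj_ofReal, ← Complex.exp_add]
      congr 1
      rw [D_cons]
      have e1 : x0 + ((n + i * d : ℕ) : ℝ) = x0 + n + ((i * d : ℕ) : ℝ) := by push_cast; ring
      have e2 : x0 + ((n + j * d : ℕ) : ℝ) = x0 + n + ((j * d : ℕ) : ℝ) := by push_cast; ring
      rw [e1, e2]
      push_cast
      ring

end Pool.Agent.Lib.VDC
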