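import Mathlib

/-!
# The discrete Kusmin-Landau inequality

If the differences `θ (n+1) - θ n` decrease and lie in `[lam, π]`, then `|∑ e^(i θ n)| ≤ 8 / lam`.
-/

set_option autoImplicit false

namespace Pool.Agent.Lib.VDC

open Finset Complex

/-- `cot (δ / 2)` -/
noncomputable def ct (d : ℝ) : ℝ := Real.cos (d / 2) / Real.sin (d / 2)

/-- `1 / (e^(iδ) - 1)` -/
noncomputable def cc (d : ℝ) : ℂ := -(1 / 2 : ℂ) - (I / 2) * (ct d : ℂ)

theorem sin_half_pos {d : ℝ} (h0 : 0 < d) (h1 : d ≤ Real.pi) : 0 < Real.sin (d / 2) :=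
  Real.sin_pos_of_pos_of_lt_pi (by linarith) (by linarith [Real.pi_pos])

theorem cc_mul {d : ℝ} (h0 : 0 < d) (h1 : d ≤ Real.pi) : cc d * (Complex.exp (I * d) - 1) = 1 := by
  have hs : (Real.sin (d / 2) : ℂ) ≠ 0 := by
    have := (sin_half_pos h0 h1).ne'
    exact_mod_cast this
  have e1 : Complex.exp (I * d) = (Real.cos d : ℂ) + (Real.sin d : ℂ) * I := by
    rw [mul_comm, Complex.exp_mul_I, Complex.ofReal_cos, Complex.ofReal_sin]
  have e2 : Real.cos d = 1 - 2 * Real.sin (d / 2) ^ 2 := by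
    have := Real.cos_two_mul (d / 2)
    have h2 := Real.sin_sq_add_cos_sq (d / 2)
    rw [show 2 * (d / 2) = d by ring] at this
    rw [this]; linarith
  have e3 : Real.sin d = 2 * Real.sin (d / 2) * Real.cos (d / 2) := by
    have := Real.sin_two_mul (d / 2)
    rwa [show 2 * (d / 2) = d by ring] at this
  have e4 : (Real.sin (d / 2) : ℂ) ^ 2 + (Real.cos (d / 2) : ℂ) ^ 2 = 1 := by
    exact_mod_cast Real.sin_sq_add_cos_sq (d / 2)
  rw [e1, e2, e3, cc, ct]
  push_cast
  push_cast at hs e4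
  field_simp
  ring_nf
  ring_nf at e4
  rw [Complex.I_sq]
  linear_combination (2 : ℂ) * Complex.sin (d * (1 / 2)) * e4


theorem ct_nonneg {d : ℝ} (h0 : 0 < d) (h1 : d ≤ Real.pi) : 0 ≤ ct d := by
  have h2 : 0 ≤ Real.cos (d / 2) :=
    Real.cos_nonneg_of_neg_pi_div_two_le_of_le (by linarith [Real.pi_pos]) (by linarith)
  exact div_nonneg h2 (sin_half_pos h0 h1).le

theorem ct_anti {d e : ℝ} (h0 : 0 < d) (h1 : d ≤ e) (h2 : e ≤ Real.pi) : ct e ≤ ct d := by
  have hp := Real.pi_pos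
  have c1 : Real.cos (e / 2) ≤ Real.cos (d / 2) :=
    Real.cos_le_cos_of_nonneg_of_le_pi (by linarith) (by linarith) (by linarith)
  have c2 : 0 ≤ Real.cos (e / 2) :=
    Real.cos_nonneg_of_neg_pi_div_two_le_of_le (by linarith) (by linarith)
  have s1 : Real.sin (d / 2) ≤ Real.sin (e / 2) :=
    Real.sin_le_sin_of_le_of_le_pi_div_two (by linarith) (by linarith) (by linarith)
  exact div_le_div₀ (c2.trans c1) c1 (sin_half_pos h0 (h1.trans h2)) s1

theorem ct_le {d : ℝ} (h0 : 0 < d) (h1 : d ≤ Real.pi) : ct d ≤ Real.pi / d := by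
  have hp := Real.pi_pos
  have hs := sin_half_pos h0 h1
  have h2 : d / Real.pi ≤ Real.sin (d / 2) := by
    have := Real.mul_le_sin (x := d / 2) (by linarith) (by linarith)
    calc d / Real.pi = 2 / Real.pi * (d / 2) := by ring
      _ ≤ _ := this
  unfold ct
  rw [div_le_div_iff₀ hs h0]
  have h3 : Real.cos (d / 2) ≤ 1 := Real.cos_le_one _
  have h4 : d ≤ Real.pi * Real.sin (d / 2) := by
    rwa [div_le_iff₀ hp, mul_comm] at h2
  calc Real.cos (d / 2) * d ≤ 1 * d := mul_le_mul_of_nonneg_right h3 h0.le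
    _ = d := one_mul d
    _ ≤ _ := h4

theorem norm_cc_le {d : ℝ} (h0 : 0 < d) (h1 : d ≤ Real.pi) : ‖cc d‖ ≤ Real.pi / d := by
  have hp := Real.pi_pos
  have h2 : ‖cc d‖ ≤ 1 / 2 + ct d / 2 := by
    unfold cc
    refine (norm_sub_le _ _).trans ?_
    rw [norm_neg, norm_mul, norm_div, norm_div, Complex.norm_I, Complex.norm_real,
      Real.norm_eq_abs, abs_of_nonneg (ct_nonneg h0 h1)]
    simp only [norm_one, RCLike.norm_ofNat]
    linarith
  have h3 := ct_le h0 h1
  have h4 : 1 ≤ Real.pi / d := by rw [le_div_iff₀ h0]; linarith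
  linarith

theorem cc_sub (d e : ℝ) : ‖cc d - cc e‖ = |ct d - ct e| / 2 := by
  have : cc d - cc e = (I / 2) * ((ct e - ct d : ℝ) : ℂ) := by
    unfold cc; push_cast; ring
  rw [this, norm_mul, norm_div, Complex.norm_I, Complex.norm_real, Real.norm_eq_abs, abs_sub_comm]
  simp only [RCLike.norm_ofNat]
  ring

/-- **Discrete Kusmin-Landau inequality.** -/
theorem kusmin_landau (θ : ℕ → ℝ) (N : ℕ) (lam : ℝ) (hlam : 0 < lam)
    (h1 : ∀ n < N, lam ≤ θ (n + 1) - θ n) (h2 : ∀ n < N, θ (n + 1) - θ n ≤ Real.pi)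
    (h3 : ∀ n, n + 1 < N → θ (n + 2) - θ (n + 1) ≤ θ (n + 1) - θ n) :
    ‖∑ n ∈ range N, Complex.exp (I * (θ n : ℂ))‖ ≤ 8 / lam := by
  rcases Nat.eq_zero_or_pos N with h0 | h0
  · subst h0
    simp only [range_zero, sum_empty, norm_zero]
    positivity
  obtain ⟨M, rfl⟩ : ∃ M, N = M + 1 := ⟨N - 1, by omega⟩
  set E : ℕ → ℂ := fun n => Complex.exp (I * (θ n : ℂ)) with hE
  set d : ℕ → ℝ := fun n => θ (n + 1) - θ n with hd
  have hE1 : ∀ n, ‖E n‖ = 1 := by
    intro n
    simp only [hE]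
    rw [mul_comm, Complex.norm_exp_ofReal_mul_I]
  have hdpos : ∀ n < M + 1, 0 < d n := fun n hn => lt_of_lt_of_le hlam (h1 n hn)
  have key : ∀ n < M + 1, E n = cc (d n) * (E (n + 1) - E n) := by
    intro n hn
    have e1 : E (n + 1) = E n * Complex.exp (I * (d n : ℂ)) := by
      simp only [hE, hd]
      rw [← Complex.exp_add]
      congr 1
      push_cast
      ring
    rw [e1]
    have e2 := cc_mul (hdpos n hn) (h2 n hn)
    linear_combination -(E n) * e2
  have main : ∀ m ≤ M, ‖∑ n ∈ range (m + 1), E n - cc (d m) * E (m + 1)‖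
      ≤ ‖cc (d 0)‖ + (ct (d m) - ct (d 0)) / 2 := by
    intro m
    induction m with
    | zero =>
      intro _
      have e1 : ∑ n ∈ range (0 + 1), E n - cc (d 0) * E (0 + 1) = -(cc (d 0) * E 0) := by
        rw [zero_add, sum_range_one]
        have := key 0 (by omega)
        linear_combination this
      rw [e1, norm_neg, norm_mul, hE1]
      simp
    | succ m ih =>
      intro hm
      have ih' := ih (by omega)
      have e1 : ∑ n ∈ range (m + 1 + 1), E n - cc (d (m + 1)) * E (m + 1 + 1)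
          = (∑ n ∈ range (m + 1), E n - cc (d m) * E (m + 1))
            - (cc (d (m + 1)) - cc (d m)) * E (m + 1) := by
        rw [sum_range_succ]
        have := key (m + 1) (by omega)
        linear_combination this
      rw [e1]
      refine (norm_sub_le _ _).trans ?_
      rw [norm_mul, hE1, mul_one, cc_sub]
      have a1 : d (m + 1) ≤ d m := h3 m (by omega)
      have a2 : ct (d m) ≤ ct (d (m + 1)) :=
        ct_anti (hdpos (m + 1) (by omega)) a1 (h2 m (by omega))
      rw [abs_of_nonneg (by linarith)]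
      linarith
  have hM := main M le_rfl
  have b0 : ‖cc (d 0)‖ ≤ Real.pi / lam :=
    (norm_cc_le (hdpos 0 (by omega)) (h2 0 (by omega))).trans
      (div_le_div_of_nonneg_left Real.pi_pos.le hlam (h1 0 (by omega)))
  have b1 : ‖cc (d M)‖ ≤ Real.pi / lam :=
    (norm_cc_le (hdpos M (by omega)) (h2 M (by omega))).trans
      (div_le_div_of_nonneg_left Real.pi_pos.le hlam (h1 M (by omega)))
  have b2 : ct (d M) ≤ Real.pi / lam :=
    (ct_le (hdpos M (by omega)) (h2 M (by omega))).trans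
      (div_le_div_of_nonneg_left Real.pi_pos.le hlam (h1 M (by omega)))
  have b3 : 0 ≤ ct (d 0) := ct_nonneg (hdpos 0 (by omega)) (h2 0 (by omega))
  have b4 : ‖∑ n ∈ range (M + 1), E n‖
      ≤ ‖∑ n ∈ range (M + 1), E n - cc (d M) * E (M + 1)‖ + ‖cc (d M) * E (M + 1)‖ := by
    have := norm_add_le (∑ n ∈ range (M + 1), E n - cc (d M) * E (M + 1)) (cc (d M) * E (M + 1))
    rwa [sub_add_cancel] at this
  rw [norm_mul, hE1, mul_one] at b4
  have b5 : Real.pi / lam * (5 / 2) ≤ 8 / lam := by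
    rw [div_mul_eq_mul_div]
    apply div_le_div_of_nonneg_right _ hlam.le
    have := Real.pi_lt_d2
    linarith
  linarith

end Pool.Agent.Lib.VDC
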