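import Pool.Agent.Lib.MP_092512_nt.VC.V1

/-!
# The van der Corput bound for one number of differencings
-/

set_option autoImplicit false

namespace Pool.Agent.Lib.VDC

open Finset Complex

/-- the exponents of the induction -/
def ee (A : ℕ) : ℕ → ℕ
  | 0 => A + 2
  | s + 1 => 2 * ee A s + 2

theorem ee_lt (A s : ℕ) : ee A s < ee A (s + 1) := by
  show ee A s < 2 * ee A s + 2
  omega

theorem ee_mono (A : ℕ) {s r : ℕ} (h : s ≤ r) : ee A s ≤ ee A r := by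
  induction r with
  | zero => rw [Nat.le_zero.1 h]
  | succ r ih =>
    rcases Nat.lt_or_ge s (r + 1) with h1 | h1
    · exact (ih (by omega)).trans (ee_lt A r).le
    · rw [show s = r + 1 by omega]

theorem fr_le (A ρ : ℕ) (K f0 R E : ℝ) (hK : 16 ≤ K)
    (h0 : f0 ≤ 1 / K ^ ee A ρ) (hR : 1 / R ≤ 1 / K ^ ee A ρ) (hE : E ≤ 1 / K ^ ee A ρ) :
    ∀ r ≤ ρ, fr f0 R E r ≤ 1 / K ^ ee A (ρ - r) := by
  have hK0 : 0 < K := by linarith
  intro r
  induction r with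
  | zero => intro _; exact h0
  | succ r ih =>
    intro hr
    have ih' := ih (by omega)
    obtain ⟨s, hs⟩ : ∃ s, ρ - r = s + 1 := ⟨ρ - r - 1, by omega⟩
    rw [hs] at ih'
    rw [show ρ - (r + 1) = s by omega, fr]
    have e1 : ee A (s + 1) = 2 * ee A s + 2 := rfl
    have hm1 : ee A (s + 1) ≤ ee A ρ := ee_mono A (by omega)
    have a1 : 1 / K ^ ee A ρ ≤ 1 / K ^ ee A (s + 1) :=
      one_div_le_one_div_of_le (by positivity) (pow_le_pow_right₀ (by linarith) hm1)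
    have a2 : 1 / R + fr f0 R E r ≤ 4 * (1 / K ^ (ee A s + 1)) ^ 2 := by
      have : (1 / K ^ (ee A s + 1)) ^ 2 = 1 / K ^ ee A (s + 1) := by
        rw [e1, div_pow, one_pow, ← pow_mul]
        congr 2
        ring
      rw [this]
      have : 0 ≤ 1 / K ^ ee A (s + 1) := by positivity
      linarith
    have a3 : Real.sqrt (1 / R + fr f0 R E r) ≤ 2 * (1 / K ^ (ee A s + 1)) := by
      rw [show (4 : ℝ) * (1 / K ^ (ee A s + 1)) ^ 2 = (2 * (1 / K ^ (ee A s + 1))) ^ 2 by ring] at a2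
      exact (Real.sqrt_le_sqrt a2).trans (by rw [Real.sqrt_sq (by positivity)])
    have a4 : E ≤ 1 / K ^ (ee A s + 1) := by
      refine hE.trans (one_div_le_one_div_of_le (by positivity)
        (pow_le_pow_right₀ (by linarith) ?_))
      have := ee_lt A s
      omega
    have a5 : 1 / K ^ (ee A s + 1) = (1 / K) * (1 / K ^ ee A s) := by
      rw [pow_succ]; field_simp
    have a6 : 1 / K ≤ 1 / 16 := one_div_le_one_div_of_le (by norm_num) hK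
    have a7 : 0 ≤ 1 / K ^ ee A s := by positivity
    have a8 : (1 / K) * (1 / K ^ ee A s) ≤ 1 / 16 * (1 / K ^ ee A s) :=
      mul_le_mul_of_nonneg_right a6 a7
    rw [a5] at a3 a4
    linarith

/-- the constant for `ρ` differencings -/
def Cst (ρ : ℕ) : ℕ := 24 * 6 ^ ρ + 2 ^ ρ * ρ.factorial + 2 * ρ + 20

/-- the exponent for `ρ` differencings -/
def Mst (A ρ : ℕ) : ℕ := 2 * ee A ρ + ee A ρ * ρ + A + 2

theorem vdc_rho (A ρ : ℕ) (hρ : 1 ≤ ρ) (K q t x0 : ℝ) (N : ℕ)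
    (hK : (Cst ρ : ℝ) ≤ K) (hKq : K ^ Mst A ρ ≤ q)
    (ht1 : q ^ (ρ + 2) ≤ |t|) (ht2 : |t| ≤ q ^ (4 * ρ + 2))
    (hx0 : q ^ 4 ≤ x0) (hx1 : x0 ≤ q ^ 4 + 2) (hN : (N : ℝ) ≤ q ^ 4 + 2)
    (hN1 : q ^ 4 / K ^ (A + 1) ≤ N) :
    ‖∑ n ∈ range N, Complex.exp (I * ((t * Real.log (x0 + n) : ℝ) : ℂ))‖
      ≤ q ^ 4 / K ^ A := by
  set E := ee A ρ with hE
  have hC1 : (24 * 6 ^ ρ : ℝ) ≤ K := by
    refine le_trans ?_ hK
    unfold Cst; push_cast
    have : (0 : ℝ) ≤ 2 ^ ρ * (ρ.factorial : ℝ) + 2 * ρ + 20 := by positivity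
    linarith
  have hC2 : (2 ^ ρ * (ρ.factorial : ℝ)) ≤ K := by
    refine le_trans ?_ hK
    unfold Cst; push_cast
    have : (0 : ℝ) ≤ 24 * 6 ^ ρ + 2 * ρ + 20 := by positivity
    linarith
  have hC3 : (2 * ρ + 5 : ℝ) ≤ K := by
    refine le_trans ?_ hK
    unfold Cst; push_cast
    have : (0 : ℝ) ≤ 24 * 6 ^ ρ + 2 ^ ρ * (ρ.factorial : ℝ) + 15 := by positivity
    linarith
  have hC4 : (20 : ℝ) ≤ K := by
    refine le_trans ?_ hK
    unfold Cst; push_cast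
    have : (0 : ℝ) ≤ 24 * 6 ^ ρ + 2 ^ ρ * (ρ.factorial : ℝ) + 2 * ρ := by positivity
    linarith
  have hK1 : 1 ≤ K := by linarith
  have hK0 : 0 < K := by linarith
  have hpow : ∀ n, n ≤ Mst A ρ → K ^ n ≤ q := fun n hn =>
    (pow_le_pow_right₀ hK1 hn).trans hKq
  have hq1 : 1 ≤ q := by
    have := hpow 0 (Nat.zero_le _)
    simpa using this
  have hq0 : 0 < q := by linarith
  have hρr : (1 : ℝ) ≤ ρ := by exact_mod_cast hρ
  have ht0 : 0 < |t| := lt_of_lt_of_le (by positivity) ht1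
  have hN0 : (0 : ℝ) < N := lt_of_lt_of_le (by positivity) hN1
  have hN0' : 1 ≤ N := by
    have : 0 < N := by exact_mod_cast hN0
    exact this
  -- the step
  set Q : ℝ := q ^ (4 * ρ + 2) / |t| with hQ
  have hQ1 : 1 ≤ Q := by rw [hQ, one_le_div ht0]; exact ht2
  have hQ2 : Q ≤ (q ^ 3) ^ ρ := by
    rw [hQ, div_le_iff₀ ht0]
    calc q ^ (4 * ρ + 2) = (q ^ 3) ^ ρ * q ^ (ρ + 2) := by rw [← pow_mul, ← pow_add]; congr 1; ring
      _ ≤ (q ^ 3) ^ ρ * |t| := mul_le_mul_of_nonneg_left ht1 (by positivity)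
  set w : ℝ := Q ^ (1 / (ρ : ℝ)) with hw
  have hρ0 : (ρ : ℝ) ≠ 0 := by linarith
  have hwρ : w ^ ρ = Q := by
    rw [hw, ← Real.rpow_natCast, ← Real.rpow_mul (by linarith), one_div_mul_cancel hρ0,
      Real.rpow_one]
  have hw1 : 1 ≤ w := Real.one_le_rpow hQ1 (by positivity)
  have hw3 : w ≤ q ^ 3 := by
    have : w ^ ρ ≤ (q ^ 3) ^ ρ := by rw [hwρ]; exact hQ2
    exact (pow_le_pow_iff_left₀ (by linarith) (by positivity) (by omega)).1 this
  set d : ℕ := ⌊w⌋₊ with hd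
  have hd1 : 1 ≤ d := by rw [hd]; exact Nat.one_le_floor_iff w |>.2 hw1
  have hd1r : (1 : ℝ) ≤ d := by exact_mod_cast hd1
  have hdw : (d : ℝ) ≤ w := Nat.floor_le (by linarith)
  have hwd : w ≤ 2 * d := by
    have := Nat.lt_floor_add_one w
    rw [← hd] at this
    linarith
  have hdq : (d : ℝ) ≤ q ^ 3 := hdw.trans hw3
  have hdt1 : |t| * (d : ℝ) ^ ρ ≤ q ^ (4 * ρ + 2) := by
    have : (d : ℝ) ^ ρ ≤ Q := by rw [← hwρ]; exact pow_le_pow_left₀ (by positivity) hdw _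
    calc |t| * (d : ℝ) ^ ρ ≤ |t| * Q := mul_le_mul_of_nonneg_left this ht0.le
      _ = q ^ (4 * ρ + 2) := by rw [hQ]; field_simp
  have hdt2 : q ^ (4 * ρ + 2) ≤ 2 ^ ρ * (|t| * (d : ℝ) ^ ρ) := by
    have : Q ≤ (2 * (d : ℝ)) ^ ρ := by rw [← hwρ]; exact pow_le_pow_left₀ (by linarith) hwd _
    calc q ^ (4 * ρ + 2) = |t| * Q := by rw [hQ]; field_simp
      _ ≤ |t| * (2 * (d : ℝ)) ^ ρ := mul_le_mul_of_nonneg_left this ht0.le
      _ = _ := by rw [mul_pow]; ring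
  -- the number of shifts
  set R : ℕ := ⌈K ^ E⌉₊ with hR
  have hKE : 1 ≤ K ^ E := one_le_pow₀ hK1
  have hR1 : K ^ E ≤ R := Nat.le_ceil _
  have hR2 : (R : ℝ) ≤ 2 * K ^ E := by
    have := Nat.ceil_lt_add_one (show (0 : ℝ) ≤ K ^ E by positivity)
    rw [← hR] at this
    linarith
  have hR3 : 1 ≤ R := by
    have : (1 : ℝ) ≤ R := hKE.trans hR1
    exact_mod_cast this
  have hRr : (0 : ℝ) < R := by linarith
  -- (b)
  have hb : x0 + N + 1 + ρ * ((R : ℝ) * d) ≤ 3 * q ^ 4 := by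
    have b1 : (2 * ρ + 5) * K ^ E ≤ q := by
      calc (2 * ρ + 5) * K ^ E ≤ K * K ^ E := mul_le_mul_of_nonneg_right hC3 (by positivity)
        _ = K ^ (E + 1) := by ring
        _ ≤ q := hpow _ (by unfold Mst; rw [← hE]; omega)
    have b2 : (R : ℝ) * d ≤ 2 * K ^ E * q ^ 3 := mul_le_mul hR2 hdq (by positivity) (by positivity)
    have b3 : ρ * ((R : ℝ) * d) ≤ ρ * (2 * K ^ E * q ^ 3) :=
      mul_le_mul_of_nonneg_left b2 (by positivity)
    have b4 : (5 : ℝ) ≤ 5 * K ^ E * q ^ 3 := by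
      have : (1 : ℝ) ≤ K ^ E * q ^ 3 := one_le_mul_of_one_le_of_one_le hKE (one_le_pow₀ hq1)
      linarith
    have b5 : (2 * ρ + 5) * K ^ E * q ^ 3 ≤ q * q ^ 3 :=
      mul_le_mul_of_nonneg_right b1 (by positivity)
    nlinarith
  -- (c)
  have hc : |t| * (((R : ℝ) * d) ^ ρ * (ρ.factorial : ℝ) / (q ^ 4) ^ (ρ + 1)) ≤ Real.pi := by
    have c1 : (R : ℝ) ^ ρ * (ρ.factorial : ℝ) ≤ q := by
      calc (R : ℝ) ^ ρ * (ρ.factorial : ℝ) ≤ (2 * K ^ E) ^ ρ * (ρ.factorial : ℝ) := by gcongr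
        _ = (2 ^ ρ * (ρ.factorial : ℝ)) * K ^ (E * ρ) := by rw [mul_pow, ← pow_mul]; ring
        _ ≤ K * K ^ (E * ρ) := mul_le_mul_of_nonneg_right hC2 (by positivity)
        _ = K ^ (E * ρ + 1) := by ring
        _ ≤ q := hpow _ (by unfold Mst; rw [← hE]; omega)
    have c2 : |t| * (((R : ℝ) * d) ^ ρ * (ρ.factorial : ℝ) / (q ^ 4) ^ (ρ + 1))
        = (|t| * (d : ℝ) ^ ρ) * ((R : ℝ) ^ ρ * (ρ.factorial : ℝ)) / (q ^ 4) ^ (ρ + 1) := by
      rw [mul_pow]; ring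
    rw [c2]
    have c3 : (|t| * (d : ℝ) ^ ρ) * ((R : ℝ) ^ ρ * (ρ.factorial : ℝ)) / (q ^ 4) ^ (ρ + 1) ≤ 1 := by
      rw [div_le_one (by positivity)]
      calc (|t| * (d : ℝ) ^ ρ) * ((R : ℝ) ^ ρ * (ρ.factorial : ℝ)) ≤ q ^ (4 * ρ + 2) * q := by gcongr
        _ = q ^ (4 * ρ + 3) := by ring
        _ ≤ q ^ (4 * (ρ + 1)) := pow_le_pow_right₀ hq1 (by omega)
        _ = (q ^ 4) ^ (ρ + 1) := by rw [← pow_mul]
    linarith [Real.pi_gt_three]
  -- (d)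
  have hfac : (1 : ℝ) ≤ (ρ.factorial : ℝ) := by exact_mod_cast Nat.factorial_pos ρ
  have hd' : 8 / (|t| * ((d : ℝ) ^ ρ * (ρ.factorial : ℝ) / (3 * q ^ 4) ^ (ρ + 1))) / N
      ≤ 1 / K ^ E := by
    have d1 : 8 / (|t| * ((d : ℝ) ^ ρ * (ρ.factorial : ℝ) / (3 * q ^ 4) ^ (ρ + 1)))
        ≤ 24 * 6 ^ ρ * q ^ 2 := by
      rw [div_le_iff₀ (by positivity)]
      have d2 : 24 * 6 ^ ρ * q ^ 2 * (|t| * ((d : ℝ) ^ ρ * (ρ.factorial : ℝ) /
          (3 * q ^ 4) ^ (ρ + 1)))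
          = 8 * (2 ^ ρ * (|t| * (d : ℝ) ^ ρ)) * q ^ 2 * (ρ.factorial : ℝ) / (q ^ 4) ^ (ρ + 1) := by
        rw [mul_pow, show (6 : ℝ) ^ ρ = 2 ^ ρ * 3 ^ ρ by rw [← mul_pow]; norm_num]
        field_simp
        ring
      rw [d2, le_div_iff₀ (by positivity)]
      calc 8 * (q ^ 4) ^ (ρ + 1) = 8 * q ^ (4 * ρ + 2) * q ^ 2 * 1 := by
            rw [← pow_mul]; ring
        _ ≤ 8 * (2 ^ ρ * (|t| * (d : ℝ) ^ ρ)) * q ^ 2 * (ρ.factorial : ℝ) := by gcongr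
    rw [div_le_iff₀ hN0]
    refine d1.trans ?_
    have d3 : 24 * 6 ^ ρ * K ^ (A + 1 + E) ≤ q := by
      calc 24 * 6 ^ ρ * K ^ (A + 1 + E) ≤ K * K ^ (A + 1 + E) :=
            mul_le_mul_of_nonneg_right hC1 (by positivity)
        _ = K ^ (A + 1 + E + 1) := by ring
        _ ≤ q := hpow _ (by unfold Mst; rw [← hE]; omega)
    have d4 : 24 * 6 ^ ρ * q ^ 2 ≤ q ^ 3 / K ^ (A + 1 + E) := by
      rw [le_div_iff₀ (by positivity)]
      calc 24 * 6 ^ ρ * q ^ 2 * K ^ (A + 1 + E) = (24 * 6 ^ ρ * K ^ (A + 1 + E)) * q ^ 2 := by ring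
        _ ≤ q * q ^ 2 := mul_le_mul_of_nonneg_right d3 (by positivity)
        _ = q ^ 3 := by ring
    refine d4.trans ?_
    calc q ^ 3 / K ^ (A + 1 + E) ≤ q ^ 4 / K ^ (A + 1 + E) :=
          div_le_div_of_nonneg_right (pow_le_pow_right₀ hq1 (by norm_num)) (by positivity)
      _ = 1 / K ^ E * (q ^ 4 / K ^ (A + 1)) := by
          rw [pow_add]; field_simp
      _ ≤ 1 / K ^ E * N := mul_le_mul_of_nonneg_left hN1 (by positivity)
  -- (e)
  have he : 2 * ((R * d : ℕ) : ℝ) / N ≤ 1 / K ^ E := by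
    rw [div_le_iff₀ hN0]
    push_cast
    have e1 : 2 * ((R : ℝ) * d) ≤ 4 * K ^ E * q ^ 3 := by
      have : (R : ℝ) * d ≤ 2 * K ^ E * q ^ 3 := mul_le_mul hR2 hdq (by positivity) (by positivity)
      linarith
    refine e1.trans ?_
    have e2 : 4 * K ^ (2 * E + A + 1) ≤ q := by
      calc 4 * K ^ (2 * E + A + 1) ≤ K * K ^ (2 * E + A + 1) :=
            mul_le_mul_of_nonneg_right (by linarith) (by positivity)
        _ = K ^ (2 * E + A + 1 + 1) := by ring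
        _ ≤ q := hpow _ (by unfold Mst; rw [← hE]; omega)
    calc 4 * K ^ E * q ^ 3 ≤ q ^ 4 / K ^ (E + A + 1) := by
          rw [le_div_iff₀ (by positivity)]
          calc 4 * K ^ E * q ^ 3 * K ^ (E + A + 1) = (4 * K ^ (2 * E + A + 1)) * q ^ 3 := by ring
            _ ≤ q * q ^ 3 := mul_le_mul_of_nonneg_right e2 (by positivity)
            _ = q ^ 4 := by ring
      _ = 1 / K ^ E * (q ^ 4 / K ^ (A + 1)) := by
          rw [add_assoc, pow_add]; field_simp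
      _ ≤ 1 / K ^ E * N := mul_le_mul_of_nonneg_left hN1 (by positivity)
  have hR' : 1 / (R : ℝ) ≤ 1 / K ^ E := one_div_le_one_div_of_le (by positivity) hR1
  have key := vdc_ind t x0 (q ^ 4) ρ d R N hd1 hR3 hN0' (by positivity)
    (abs_pos.1 ht0) hx0 hb hc ρ le_rfl [] (by simp) (by intro p hp; simp at hp)
  simp only [D_nil] at key
  refine key.trans ?_
  have hfr := fr_le A ρ K _ R _ (by linarith) hd' hR' he ρ le_rfl
  rw [Nat.sub_self] at hfr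
  have h2 : ee A 0 = A + 2 := rfl
  rw [h2] at hfr
  calc _ ≤ 1 / K ^ (A + 2) * N := mul_le_mul_of_nonneg_right hfr hN0.le
    _ ≤ 1 / K ^ (A + 2) * (K * q ^ 4) := by
        refine mul_le_mul_of_nonneg_left (hN.trans ?_) (by positivity)
        have : (1 : ℝ) ≤ q ^ 4 := one_le_pow₀ hq1
        nlinarith
    _ = 1 / K ^ (A + 1) * q ^ 4 := by
        rw [pow_succ K (A + 1)]; field_simp
    _ ≤ 1 / K ^ A * q ^ 4 := by
        refine mul_le_mul_of_nonneg_right ?_ (by positivity)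
        exact one_div_le_one_div_of_le (by positivity) (pow_le_pow_right₀ hK1 (by omega))
    _ = q ^ 4 / K ^ A := by ring

end Pool.Agent.Lib.VDC
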